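import Pool.Agent.TH511.HLC.Loc

/-!
# Point sets cut by lines into cells in convex position
-/

set_option autoImplicit false

namespace Pool.Agent.TH511.HLC

open Finset Pool.Agent.W296.HL

open scoped Classical

/-- **cells, directed form**: `m` lines, the points of `P` in each cell are in convex position -/
theorem cells_dir {P : Finset (ℝ × ℝ)} (hP : Gen P) (j : ℕ) {m : ℕ} (α β γ : Fin m → ℝ)
    (hne : ∀ t, ∀ p ∈ P, α t * p.1 + β t * p.2 ≠ γ t)
    (hv : ∀ p ∈ P, p ∉ convexHull ℝ {q : ℝ × ℝ | q ∈ P ∧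
      (∀ t, (γ t < α t * p.1 + β t * p.2 ↔ γ t < α t * q.1 + β t * q.2)) ∧ q ≠ p}) :
    #(DD P j) ≤ (2 * m + 1) * #P := by
  set U : Fin m → Set (ℝ × ℝ) := fun t => {q | γ t < α t * q.1 + β t * q.2} with hU
  set V : Fin m → Set (ℝ × ℝ) := fun t => {q | α t * q.1 + β t * q.2 < γ t} with hV
  have hcomb : ∀ (t : Fin m) (x y : ℝ × ℝ) (a b : ℝ),
      α t * (a • x + b • y).1 + β t * (a • x + b • y).2 =
        a * (α t * x.1 + β t * x.2) + b * (α t * y.1 + β t * y.2) := by
    intro t x y a b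
    simp only [Prod.fst_add, Prod.smul_fst, Prod.snd_add, Prod.smul_snd, smul_eq_mul]; ring
  have hUc : ∀ t, Convex ℝ (U t) := by
    intro t
    rw [convex_iff_forall_pos]
    rintro x hx y hy a b ha hb hab
    simp only [hU, Set.mem_ofPred_eq] at hx hy ⊢
    rw [hcomb]
    have e : γ t = a * γ t + b * γ t := by rw [← add_mul, hab, one_mul]
    rw [e]
    exact add_lt_add (mul_lt_mul_of_pos_left hx ha) (mul_lt_mul_of_pos_left hy hb)
  have hVc : ∀ t, Convex ℝ (V t) := by
    intro t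
    rw [convex_iff_forall_pos]
    rintro x hx y hy a b ha hb hab
    simp only [hV, Set.mem_ofPred_eq] at hx hy ⊢
    rw [hcomb]
    have e : γ t = a * γ t + b * γ t := by rw [← add_mul, hab, one_mul]
    rw [e]
    exact add_lt_add (mul_lt_mul_of_pos_left hx ha) (mul_lt_mul_of_pos_left hy hb)
  have h := (pattern2 hP j P (Finset.Subset.refl P) (s := m + m) (Fin.append U V) (by
      intro i
      refine Fin.addCases (fun t => ?_) (fun t => ?_) i
      · rw [Fin.append_left]; exact hUc t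
      · rw [Fin.append_right]; exact hVc t) (by
      intro p hp hcon
      apply hv p hp
      refine convexHull_mono ?_ hcon
      rintro q ⟨hq1, hq2, hq3⟩
      refine ⟨hq1, fun t => ?_, hq3⟩
      have h1 := hq2 (Fin.castAdd m t)
      have h2 := hq2 (Fin.natAdd m t)
      rw [Fin.append_left] at h1
      rw [Fin.append_right] at h2
      constructor
      · intro h3; exact h1 h3
      · intro h3
        by_contra h4
        have h5 : p ∈ V t := lt_of_le_of_ne (not_lt.1 h4) (hne t p hp)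
        have h6 : α t * q.1 + β t * q.2 < γ t := h2 h5
        exact lt_asymm h3 h6)).1
  have e1 : ({z ∈ DD P j | z.1 ∈ P ∧ z.2 ∈ P} : Finset ((ℝ × ℝ) × (ℝ × ℝ))) = DD P j := by
    apply filter_true_of_mem
    intro z hz
    have := mem_DD.1 hz
    exact ⟨this.1, this.2.1⟩
  rw [e1, Fin.sum_univ_add] at h
  have e2 : ∀ t : Fin m, #{p ∈ P | p ∉ U t} + #{p ∈ P | p ∉ V t} = #P := by
    intro t
    rw [← card_filter_add_card_filter_not (s := P) (fun p => p ∉ U t)]
    congr 2
    ext p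
    simp only [mem_filter]
    constructor
    · rintro ⟨hp, h3⟩
      refine ⟨hp, ?_⟩
      rw [not_not]
      by_contra h4
      have h5 : α t * p.1 + β t * p.2 ≤ γ t := not_lt.1 h4
      exact h3 (lt_of_le_of_ne h5 (hne t p hp))
    · rintro ⟨hp, h3⟩
      refine ⟨hp, ?_⟩
      rw [not_not] at h3
      intro h4
      have h5 : γ t < α t * p.1 + β t * p.2 := h3
      have h6 : α t * p.1 + β t * p.2 < γ t := h4
      exact lt_asymm h5 h6
  have e3 : ∑ t : Fin m, #{p ∈ P | p ∉ Fin.append U V (Fin.castAdd m t)} +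
      ∑ t : Fin m, #{p ∈ P | p ∉ Fin.append U V (Fin.natAdd m t)} = m * #P := by
    rw [← sum_add_distrib]
    rw [sum_congr rfl (fun t _ => by rw [Fin.append_left, Fin.append_right, e2 t] :
      ∀ t ∈ (univ : Finset (Fin m)), #{p ∈ P | p ∉ Fin.append U V (Fin.castAdd m t)} +
        #{p ∈ P | p ∉ Fin.append U V (Fin.natAdd m t)} = #P)]
    rw [sum_const, card_univ, Fintype.card_fin, smul_eq_mul]
  rw [e3] at h
  calc #(DD P j) ≤ #P + 2 * (m * #P) := h
    _ = (2 * m + 1) * #P := by ring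

/-- **cells**: `m` lines, the points of `P` in each cell are in convex position -/
theorem cells {P : Finset (ℝ × ℝ)} (hP : Gen P) {m : ℕ} (α β γ : Fin m → ℝ)
    (hne : ∀ t, ∀ p ∈ P, α t * p.1 + β t * p.2 ≠ γ t)
    (hv : ∀ p ∈ P, p ∉ convexHull ℝ {q : ℝ × ℝ | q ∈ P ∧
      (∀ t, (γ t < α t * p.1 + β t * p.2 ↔ γ t < α t * q.1 + β t * q.2)) ∧ q ≠ p}) :
    2 * {L | IsBisector P L}.ncard ≤ (2 * m + 1) * #P := by
  rw [← bisIn_self]
  refine (bisIn_le P P (Finset.Subset.refl P)).trans ((card_filter_le _ _).trans ?_)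
  exact cells_dir hP _ α β γ hne hv

end Pool.Agent.TH511.HLC
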