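import Pool.Agent.W296.HL4

/-!
# Directed `j`-edges: alternation, convex cuts, patterns

`D P j p q`: `p ≠ q` and exactly `j` points of `P` lie to the left of the directed line `p → q`.
-/

set_option autoImplicit false

namespace Pool.Agent.TH511.HLC

open Finset Pool.Agent.W296.HL

open scoped Classical

/-- `p → q` is a directed `j`-edge of `P` -/
def D (P : Finset (ℝ × ℝ)) (j : ℕ) (p q : ℝ × ℝ) : Prop :=
  p ≠ q ∧ #{x ∈ P | 0 < cr p q x} = j

variable {P : Finset (ℝ × ℝ)} {p : ℝ × ℝ} {α β : ℝ} {j : ℕ}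

lemma G_of_D_pos (hN : 0 < α ^ 2 + β ^ 2) {q : ℝ × ℝ} (h0 : 0 < ph α β p q) :
    G P α β p (sl α β p q) = #{x ∈ P | 0 < cr p q x} := by
  unfold G; congr 1; ext x
  simp only [mem_filter, (cr_pos_iff hN h0.ne' x).1 h0]

lemma G_of_D_neg (hN : 0 < α ^ 2 + β ^ 2) {q : ℝ × ℝ} (h0 : ph α β p q < 0) :
    G P α β p (sl α β p q) = #{x ∈ P | 0 < cr q p x} := by
  unfold G; congr 1; ext x
  simp only [mem_filter, cr_swap p q x, neg_pos, (cr_pos_iff hN h0.ne x).2 h0]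

/-- **the alternation at a point** -/
lemma alt1 (hP : Gen P) (hp : p ∈ P) (hN : 0 < α ^ 2 + β ^ 2) (j : ℕ) :
    #{x ∈ P | 0 < ph α β p x ∧ D P j p x} ≤ #{x ∈ P | ph α β p x < 0 ∧ D P j x p} + 1 := by
  set L : Finset (ℝ × ℝ) := {x ∈ P | ph α β p x ≠ 0} with hL
  set t : ℤ := (j : ℤ) - #{x ∈ P | 0 < ph α β p x} -
    #{x ∈ P | ph α β p x = 0 ∧ 0 < ps α β p x} with ht
  have h := walk_card (sl α β p) (Bk α β p) t L (sl_inj hP hp hN)
  have h1 : ({x ∈ P | 0 < ph α β p x ∧ D P j p x} : Finset (ℝ × ℝ)) ⊆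
      {x ∈ L | ¬ Bk α β p x ∧ wlk (sl α β p) (Bk α β p) L x = t + 1} := by
    intro x hx
    rw [mem_filter] at hx
    obtain ⟨hx1, hx2, hx3⟩ := hx
    have hne : ph α β p x ≠ 0 := hx2.ne'
    rw [mem_filter, hL, mem_filter]
    refine ⟨⟨hx1, hne⟩, not_lt.mpr hx2.le, ?_⟩
    have h2 : G P α β p (sl α β p x) = j := by rw [G_of_D_pos hN hx2]; exact hx3.2
    have h3 := G_eq hP hp hN hx1 hne
    rw [if_pos hx2, h2] at h3
    rw [← hL] at h3 ⊢
    linarith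
  have h2 : ({x ∈ L | Bk α β p x ∧ wlk (sl α β p) (Bk α β p) L x = t} : Finset (ℝ × ℝ)) ⊆
      {x ∈ P | ph α β p x < 0 ∧ D P j x p} := by
    intro x hx
    rw [mem_filter, hL, mem_filter] at hx
    obtain ⟨⟨hx1, hne⟩, hx2, hx3⟩ := hx
    rw [mem_filter]
    have hx2' : ph α β p x < 0 := hx2
    refine ⟨hx1, hx2, ?_, ?_⟩
    · rintro rfl
      apply hne; unfold ph; ring
    · rw [← G_of_D_neg hN hx2']
      have h3 := G_eq hP hp hN hx1 hne
      rw [if_neg (not_lt.mpr (le_of_lt hx2'))] at h3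
      have : (G P α β p (sl α β p x) : ℤ) = (j : ℤ) := by
        rw [h3, hx3]; linarith
      exact_mod_cast this
  exact (card_le_card h1).trans (h.trans (Nat.add_le_add_right (card_le_card h2) 1))

/-- reversing a directed edge -/
lemma D_rev (hP : Gen P) {q : ℝ × ℝ} (hp : p ∈ P) (hq : q ∈ P) :
    D P j q p ↔ j + 2 ≤ #P ∧ D P (#P - 2 - j) p q := by
  unfold D
  constructor
  · rintro ⟨h1, h2⟩
    have h3 := card3 hP hp hq h1.symm
    have h4 : #{x ∈ P | 0 < cr q p x} = #{x ∈ P | cr p q x < 0} := by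
      congr 1; ext x; simp only [mem_filter, cr_swap p q x, neg_pos]
    rw [h4] at h2
    refine ⟨by omega, h1.symm, by omega⟩
  · rintro ⟨h0, h1, h2⟩
    have h3 := card3 hP hp hq h1
    have h4 : #{x ∈ P | 0 < cr q p x} = #{x ∈ P | cr p q x < 0} := by
      congr 1; ext x; simp only [mem_filter, cr_swap p q x, neg_pos]
    rw [h4]
    exact ⟨h1.symm, by omega⟩

/-- the alternation at a point, reversed -/
lemma alt2 (hP : Gen P) (hp : p ∈ P) (hN : 0 < α ^ 2 + β ^ 2) (j : ℕ) :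
    #{x ∈ P | 0 < ph α β p x ∧ D P j x p} ≤ #{x ∈ P | ph α β p x < 0 ∧ D P j p x} + 1 := by
  by_cases hj : j + 2 ≤ #P
  · have h := alt1 hP hp hN (α := α) (β := β) (#P - 2 - j)
    refine le_trans (card_le_card ?_) (h.trans (Nat.add_le_add_right (card_le_card ?_) 1))
    · intro x hx
      rw [mem_filter] at hx ⊢
      exact ⟨hx.1, hx.2.1, ((D_rev hP hp hx.1).1 hx.2.2).2⟩
    · intro x hx
      rw [mem_filter] at hx ⊢
      refine ⟨hx.1, hx.2.1, ?_⟩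
      have h1 := ((D_rev hP hp hx.1).1 hx.2.2)
      have e : #P - 2 - (#P - 2 - j) = j := by omega
      rw [e] at h1
      exact h1.2
  · have : ({x ∈ P | 0 < ph α β p x ∧ D P j x p} : Finset (ℝ × ℝ)) = ∅ := by
      apply filter_eq_empty_iff.mpr
      rintro x hx ⟨-, h⟩
      exact hj ((D_rev hP hp hx).1 h).1
    rw [this, card_empty]
    exact Nat.zero_le _

/-- a line through `p` with all the points of `S` on one side -/
lemma sep (S : ℝ × ℝ → Prop)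
    (hr : p ∉ convexHull ℝ {q : ℝ × ℝ | q ∈ P ∧ S q ∧ q ≠ p})
    (hne : ∃ q ∈ P, S q ∧ q ≠ p) :
    ∃ α β : ℝ, 0 < α ^ 2 + β ^ 2 ∧ ∀ q ∈ P, S q → q ≠ p → 0 < ph α β p q := by
  have hfin : {q : ℝ × ℝ | q ∈ P ∧ S q ∧ q ≠ p}.Finite :=
    P.finite_toSet.subset fun q hq => hq.1
  obtain ⟨f, u, hu1, hu2⟩ := geometric_hahn_banach_point_closed (convex_convexHull ℝ _)
    (hfin.isClosed_convexHull ℝ) hr
  set α := f (1, 0) with hα
  set β := f (0, 1) with hβ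
  have hf : ∀ x : ℝ × ℝ, f x = α * x.1 + β * x.2 := by
    intro x
    have : x = x.1 • ((1 : ℝ), (0 : ℝ)) + x.2 • ((0 : ℝ), (1 : ℝ)) := by
      ext <;> simp
    conv_lhs => rw [this]
    rw [map_add, map_smul, map_smul, smul_eq_mul, smul_eq_mul]; ring
  have hpos : ∀ q ∈ P, S q → q ≠ p → 0 < ph α β p q := by
    intro q hq h1 h2
    have h3 := hu2 q (subset_convexHull ℝ _ ⟨hq, h1, h2⟩)
    rw [hf] at h3 hu1
    unfold ph
    linarith
  refine ⟨α, β, ?_, hpos⟩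
  obtain ⟨q, hq, h1, h2⟩ := hne
  by_contra h
  have h3 : α = 0 := by nlinarith [sq_nonneg α, sq_nonneg β]
  have h4 : β = 0 := by nlinarith [sq_nonneg α, sq_nonneg β]
  have := hpos q hq h1 h2
  unfold ph at this
  rw [h3, h4] at this
  linarith

/-- the degree inequality -/
lemma deg2 (hP : Gen P) (S : ℝ × ℝ → Prop) (hp : p ∈ P) (j : ℕ)
    (hr : p ∉ convexHull ℝ {q : ℝ × ℝ | q ∈ P ∧ S q ∧ q ≠ p}) :
    #{q ∈ P | S q ∧ D P j p q} ≤ #{q ∈ P | ¬ S q ∧ D P j q p} + 1 ∧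
    #{q ∈ P | S q ∧ D P j q p} ≤ #{q ∈ P | ¬ S q ∧ D P j p q} + 1 := by
  by_cases hne : ∃ q ∈ P, S q ∧ q ≠ p
  · obtain ⟨α, β, hN, hpos⟩ := sep S hr hne
    constructor
    · have h := alt1 hP hp hN j
      refine le_trans (card_le_card ?_) (h.trans (Nat.add_le_add_right (card_le_card ?_) 1))
      · intro x hx
        rw [mem_filter] at hx ⊢
        exact ⟨hx.1, hpos x hx.1 hx.2.1 hx.2.2.1.symm, hx.2.2⟩
      · intro x hx
        rw [mem_filter] at hx ⊢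
        refine ⟨hx.1, ?_, hx.2.2⟩
        intro h3
        linarith [hpos x hx.1 h3 hx.2.2.1, hx.2.1]
    · have h := alt2 hP hp hN j
      refine le_trans (card_le_card ?_) (h.trans (Nat.add_le_add_right (card_le_card ?_) 1))
      · intro x hx
        rw [mem_filter] at hx ⊢
        exact ⟨hx.1, hpos x hx.1 hx.2.1 hx.2.2.1, hx.2.2⟩
      · intro x hx
        rw [mem_filter] at hx ⊢
        refine ⟨hx.1, ?_, hx.2.2⟩
        intro h3
        linarith [hpos x hx.1 h3 hx.2.2.1.symm, hx.2.1]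
  · constructor
    · have : ({q ∈ P | S q ∧ D P j p q} : Finset (ℝ × ℝ)) = ∅ := by
        apply filter_eq_empty_iff.mpr
        intro q hq h
        exact hne ⟨q, hq, h.1, h.2.1.symm⟩
      rw [this, card_empty]
      exact Nat.zero_le _
    · have : ({q ∈ P | S q ∧ D P j q p} : Finset (ℝ × ℝ)) = ∅ := by
        apply filter_eq_empty_iff.mpr
        intro q hq h
        exact hne ⟨q, hq, h.1, h.2.1⟩
      rw [this, card_empty]
      exact Nat.zero_le _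

/-- the directed `j`-edges -/
noncomputable def DD (P : Finset (ℝ × ℝ)) (j : ℕ) : Finset ((ℝ × ℝ) × (ℝ × ℝ)) :=
  {z ∈ P ×ˢ P | D P j z.1 z.2}

lemma mem_DD {z : (ℝ × ℝ) × (ℝ × ℝ)} : z ∈ DD P j ↔ z.1 ∈ P ∧ z.2 ∈ P ∧ D P j z.1 z.2 := by
  unfold DD
  rw [mem_filter, mem_product, and_assoc]

/-- the sign of a relation -/
noncomputable def sg (R : ℝ × ℝ → ℝ × ℝ → Prop) (p q : ℝ × ℝ) : ℤ := if R p q then 1 else -1

lemma weighted2 (hP : Gen P) (j : ℕ) (R : ℝ × ℝ → ℝ × ℝ → Prop) (y : ℝ × ℝ → ℤ)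
    (hy : ∀ p ∈ P, 0 ≤ y p)
    (hr : ∀ p ∈ P, y p ≠ 0 → p ∉ convexHull ℝ {q : ℝ × ℝ | q ∈ P ∧ R p q ∧ q ≠ p}) :
    ∑ z ∈ DD P j, (y z.1 * sg R z.1 z.2 + y z.2 * sg R z.2 z.1) ≤ 2 * ∑ p ∈ P, y p := by
  have e1 : ∑ z ∈ DD P j, y z.1 * sg R z.1 z.2 =
      ∑ p ∈ P, y p * ((#{q ∈ P | R p q ∧ D P j p q} : ℤ) -
        #{q ∈ P | ¬ R p q ∧ D P j p q}) := by
    unfold DD
    rw [sum_filter, sum_product]
    refine sum_congr rfl fun p _ => ?_
    rw [card_filter, card_filter]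
    push_cast
    rw [← sum_sub_distrib, mul_sum]
    refine sum_congr rfl fun q _ => ?_
    unfold sg
    by_cases h1 : D P j p q <;> by_cases h2 : R p q <;> simp [h1, h2]
  have e2 : ∑ z ∈ DD P j, y z.2 * sg R z.2 z.1 =
      ∑ p ∈ P, y p * ((#{q ∈ P | R p q ∧ D P j q p} : ℤ) -
        #{q ∈ P | ¬ R p q ∧ D P j q p}) := by
    unfold DD
    rw [sum_filter, sum_product_right]
    refine sum_congr rfl fun p _ => ?_
    rw [card_filter, card_filter]
    push_cast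
    rw [← sum_sub_distrib, mul_sum]
    refine sum_congr rfl fun q _ => ?_
    unfold sg
    by_cases h1 : D P j q p <;> by_cases h2 : R p q <;> simp [h1, h2]
  rw [sum_add_distrib, e1, e2, ← sum_add_distrib, mul_sum]
  refine sum_le_sum fun p hp => ?_
  by_cases h0 : y p = 0
  · rw [h0]; simp
  · obtain ⟨h1, h2⟩ := deg2 hP (R p) hp j (hr p hp h0)
    have h3 : ((#{q ∈ P | R p q ∧ D P j p q} : ℤ) - #{q ∈ P | ¬ R p q ∧ D P j p q}) +
        ((#{q ∈ P | R p q ∧ D P j q p} : ℤ) - #{q ∈ P | ¬ R p q ∧ D P j q p}) ≤ 2 := by omega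
    have h4 := mul_le_mul_of_nonneg_left h3 (hy p hp)
    linarith

/-- **directed `j`-edges crossing the boundary of a convex set** -/
lemma cut2 (hP : Gen P) (j : ℕ) {K : Set (ℝ × ℝ)} (hK : Convex ℝ K) :
    #{z ∈ DD P j | ¬ (z.1 ∈ K ↔ z.2 ∈ K)} ≤ 2 * #{p ∈ P | p ∉ K} := by
  obtain ⟨r, h1, h2, h3⟩ := exists_rank hK #{p ∈ P | p ∉ K} P rfl
  set n := #{p ∈ P | p ∉ K} with hn
  have hw := weighted2 hP j (fun p q => r p ≤ r q) (fun p => if p ∈ K then 0 else 1)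
    (fun p _ => by split_ifs <;> norm_num)
    (fun p hp hy => h3 p hp (by
      intro hpK
      apply hy
      simp [hpK]))
  have hsum : (∑ p ∈ P, (if p ∈ K then (0 : ℤ) else 1)) = n := by
    rw [hn, card_filter]
    push_cast
    refine sum_congr rfl fun p _ => ?_
    by_cases h : p ∈ K <;> simp [h]
  rw [hsum] at hw
  have hlow : (#{z ∈ DD P j | ¬ (z.1 ∈ K ↔ z.2 ∈ K)} : ℤ) ≤ 2 * n := by
    refine le_trans ?_ hw
    rw [card_filter]
    push_cast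
    refine sum_le_sum fun z hz => ?_
    rw [mem_DD] at hz
    obtain ⟨hz1, hz2, hz3⟩ := hz
    by_cases hk1 : z.1 ∈ K <;> by_cases hk2 : z.2 ∈ K
    · simp [hk1, hk2]
    · have e1 := h1 z.1 hz1 hk1
      have e2 := h2 z.2 hz2 hk2
      have e3 : r z.2 ≤ r z.1 := by omega
      simp [hk1, hk2, sg, e3]
    · have e1 := h2 z.1 hz1 hk1
      have e2 := h1 z.2 hz2 hk2
      have e3 : r z.1 ≤ r z.2 := by omega
      simp [hk1, hk2, sg, e3]
    · simp only [hk1, hk2, sg, if_false, one_mul, iff_self, not_true_eq_false]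
      split_ifs <;> omega
  exact_mod_cast hlow

/-- **patterns**: let `K` be a family of convex sets and let every point `p` of `S` be a vertex of
the convex hull of the points of `P` lying in all the members that contain `p`.  Then at most
`|S| + 2 ∑ |P \ K_i|` directed `j`-edges of `P` join two points of `S`. -/
theorem pattern2 (hP : Gen P) (j : ℕ) (S : Finset (ℝ × ℝ)) (hS : S ⊆ P) {s : ℕ}
    (K : Fin s → Set (ℝ × ℝ)) (hK : ∀ i, Convex ℝ (K i))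
    (hv : ∀ p ∈ S, p ∉ convexHull ℝ {q : ℝ × ℝ | q ∈ P ∧ (∀ i, p ∈ K i → q ∈ K i) ∧ q ≠ p}) :
    #{z ∈ DD P j | z.1 ∈ S ∧ z.2 ∈ S} ≤ #S + 2 * ∑ i, #{p ∈ P | p ∉ K i} ∧
    ((∀ i, ∀ p ∈ S, p ∈ K i) →
      #{z ∈ DD P j | z.1 ∈ S ∧ z.2 ∈ S} ≤ #S + ∑ i, #{p ∈ P | p ∉ K i}) := by
  obtain ⟨R, hR⟩ : ∃ R : ℝ × ℝ → ℝ × ℝ → Prop, ∀ p q, R p q ↔ ∀ i, p ∈ K i → q ∈ K i :=
    ⟨fun p q => ∀ i, p ∈ K i → q ∈ K i, fun _ _ => Iff.rfl⟩
  obtain ⟨y, hy⟩ : ∃ y : ℝ × ℝ → ℤ, ∀ p, y p = if p ∈ S then 1 else 0 := ⟨_, fun _ => rfl⟩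
  obtain ⟨Δ, hΔ⟩ : ∃ Δ : (ℝ × ℝ) × (ℝ × ℝ) → ℤ, ∀ z, Δ z = ∑ i : Fin s,
    (if ¬ (z.1 ∈ K i ↔ z.2 ∈ K i) then (1 : ℤ) else 0) := ⟨_, fun _ => rfl⟩
  have hw := weighted2 hP j R y (fun p _ => by rw [hy]; split_ifs <;> norm_num) (by
    intro p hp h0 hcon
    have hpS : p ∈ S := by
      by_contra h
      apply h0
      rw [hy, if_neg h]
    apply hv p hpS
    refine convexHull_mono ?_ hcon
    rintro q ⟨h1, h2, h3⟩
    exact ⟨h1, (hR p q).1 h2, h3⟩)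
  have hsum : ∑ p ∈ P, y p = #S := by
    rw [sum_congr rfl fun p _ => hy p, sum_ite_mem, inter_eq_right.2 hS]
    simp
  rw [hsum] at hw
  have hC : ∑ z ∈ DD P j, Δ z ≤ 2 * ∑ i, (#{p ∈ P | p ∉ K i} : ℤ) := by
    rw [sum_congr rfl fun z _ => hΔ z, sum_comm, mul_sum]
    refine sum_le_sum fun i _ => ?_
    have h1 := cut2 hP j (hK i)
    rw [card_filter] at h1
    exact_mod_cast h1
  have hnn : ∀ z, 0 ≤ Δ z := by
    intro z
    rw [hΔ]
    exact sum_nonneg fun i _ => by split_ifs <;> norm_num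
  have h1 : ∀ z : (ℝ × ℝ) × (ℝ × ℝ), ¬ R z.1 z.2 → 1 ≤ Δ z := by
    intro z h
    rw [hR] at h
    push Not at h
    obtain ⟨i, hi⟩ := h
    rw [hΔ]
    refine le_trans ?_ (single_le_sum (f := fun i : Fin s =>
      (if ¬ (z.1 ∈ K i ↔ z.2 ∈ K i) then (1 : ℤ) else 0))
      (fun j _ => by split_ifs <;> norm_num) (mem_univ i))
    simp [hi.1, hi.2]
  have h2 : ∀ z : (ℝ × ℝ) × (ℝ × ℝ), ¬ R z.2 z.1 → 1 ≤ Δ z := by
    intro z h
    rw [hR] at h
    push Not at h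
    obtain ⟨i, hi⟩ := h
    rw [hΔ]
    refine le_trans ?_ (single_le_sum (f := fun i : Fin s =>
      (if ¬ (z.1 ∈ K i ↔ z.2 ∈ K i) then (1 : ℤ) else 0))
      (fun j _ => by split_ifs <;> norm_num) (mem_univ i))
    simp [hi.1, hi.2]
  have h12 : ∀ z : (ℝ × ℝ) × (ℝ × ℝ), ¬ R z.1 z.2 → ¬ R z.2 z.1 → 2 ≤ Δ z := by
    intro z ha hb
    rw [hR] at ha hb
    push Not at ha hb
    obtain ⟨i, hi⟩ := ha
    obtain ⟨k, hk⟩ := hb
    have hik : i ≠ k := by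
      rintro rfl
      exact hi.2 hk.1
    rw [hΔ]
    have h3 : ∑ l ∈ ({i, k} : Finset (Fin s)),
        (if ¬ (z.1 ∈ K l ↔ z.2 ∈ K l) then (1 : ℤ) else 0) ≤
        ∑ l, (if ¬ (z.1 ∈ K l ↔ z.2 ∈ K l) then (1 : ℤ) else 0) :=
      sum_le_sum_of_subset_of_nonneg (subset_univ _)
        (fun l _ _ => by split_ifs <;> norm_num)
    rw [sum_pair hik] at h3
    refine le_trans ?_ h3
    simp [hi.1, hi.2, hk.1, hk.2]
  constructor
  · have hmain : (2 * #{z ∈ DD P j | z.1 ∈ S ∧ z.2 ∈ S} : ℤ) ≤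
        ∑ z ∈ DD P j, ((y z.1 * sg R z.1 z.2 + y z.2 * sg R z.2 z.1) + 2 * Δ z) := by
      rw [card_filter]
      push_cast
      rw [mul_sum]
      refine sum_le_sum fun z _ => ?_
      have hz := hnn z
      have hz1 := h1 z
      have hz2 := h2 z
      have hz3 := h12 z
      rw [hy, hy]
      unfold sg
      by_cases c1 : z.1 ∈ S <;> by_cases c2 : z.2 ∈ S <;> by_cases c3 : R z.1 z.2 <;>
        by_cases c4 : R z.2 z.1 <;> simp only [c1, c2, c3, c4, if_true, if_false, and_true,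
          and_false, and_self, true_and, false_and, not_true_eq_false, not_false_eq_true,
          forall_true_left, IsEmpty.forall_iff] at hz1 hz2 hz3 ⊢ <;> linarith
    rw [sum_add_distrib, ← mul_sum] at hmain
    have h4 : (#{z ∈ DD P j | z.1 ∈ S ∧ z.2 ∈ S} : ℤ) ≤
        #S + 2 * ∑ i, (#{p ∈ P | p ∉ K i} : ℤ) := by linarith
    exact_mod_cast h4
  · intro hSK
    have hRS : ∀ p q, q ∈ S → R p q := by
      intro p q hq
      rw [hR]
      intro i _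
      exact hSK i q hq
    have hmain : (2 * #{z ∈ DD P j | z.1 ∈ S ∧ z.2 ∈ S} : ℤ) ≤
        ∑ z ∈ DD P j, ((y z.1 * sg R z.1 z.2 + y z.2 * sg R z.2 z.1) + Δ z) := by
      rw [card_filter]
      push_cast
      rw [mul_sum]
      refine sum_le_sum fun z _ => ?_
      have hz := hnn z
      have hz1 := h1 z
      have hz2 := h2 z
      have e1 : z.2 ∈ S → R z.1 z.2 := hRS z.1 z.2
      have e2 : z.1 ∈ S → R z.2 z.1 := hRS z.2 z.1
      rw [hy, hy]
      unfold sg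
      by_cases c1 : z.1 ∈ S <;> by_cases c2 : z.2 ∈ S <;> by_cases c3 : R z.1 z.2 <;>
        by_cases c4 : R z.2 z.1 <;> simp only [c1, c2, c3, c4, if_true, if_false, and_true,
          and_false, and_self, true_and, false_and, not_true_eq_false, not_false_eq_true,
          forall_true_left, IsEmpty.forall_iff] at hz1 hz2 e1 e2 ⊢ <;> linarith
    rw [sum_add_distrib] at hmain
    have h4 : (#{z ∈ DD P j | z.1 ∈ S ∧ z.2 ∈ S} : ℤ) ≤
        #S + ∑ i, (#{p ∈ P | p ∉ K i} : ℤ) := by linarith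
    exact_mod_cast h4

end Pool.Agent.TH511.HLC
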