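import Pool.Agent.TH511.HLC.Part
import Pool.Agent.TH511.HLC.Dir
import Pool.Agent.Results.MP_a08d0a_co.SmoothedLevel

/-!
# Levels of arrangements of lines that split into families of envelope lines
-/

set_option autoImplicit false

namespace Pool.Agent.TH511.HLC

open Finset Pool.Agent.W296.HL

open Pool.Agent.H189R2.Lev (ht)

open Pool.Agent.Results.MP_a08d0a_co.SmoothedLevel (Simple crossings psi psi_le count3)

open scoped Classical

/-- directed `j`-edges of a set covered by sets in convex position -/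
theorem cover_dir {P : Finset (ℝ × ℝ)} (hP : Gen P) (j : ℕ) {c : ℕ}
    (A : Fin c → Finset (ℝ × ℝ)) (hA : ∀ i, ConvexPosition (A i)) (hcov : ∀ p ∈ P, ∃ i, p ∈ A i) :
    #(DD P j) ≤ #P + 2 * ∑ i, #{p ∈ P | p ∉ convexHull ℝ (A i : Set (ℝ × ℝ))} := by
  have h := (pattern2 hP j P (Finset.Subset.refl P)
    (fun i => convexHull ℝ (A i : Set (ℝ × ℝ))) (fun i => convex_convexHull ℝ _) (by
      intro p hp
      obtain ⟨l, hl⟩ := hcov p hp
      apply extreme (hA l) hl
      · rintro q ⟨-, hq, -⟩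
        exact hq l (subset_convexHull ℝ _ (mem_coe.2 hl))
      · rintro ⟨-, -, h⟩
        exact h rfl)).1
  refine le_trans (le_of_eq ?_) h
  congr 1
  ext z
  rw [mem_filter]
  constructor
  · intro hz
    have := mem_DD.1 hz
    exact ⟨hz, this.1, this.2.1⟩
  · intro hz; exact hz.1

section dual

variable {n : ℕ} {a B : Fin n → ℝ}

/-- the dual point of a line -/
def pt (a B : Fin n → ℝ) (i : Fin n) : ℝ × ℝ := (a i, B i)

lemma pt_inj (ha : Function.Injective a) : Function.Injective (pt a B) := by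
  intro i j h
  exact ha (congrArg Prod.fst h)

/-- the dual points -/
noncomputable def pts (a B : Fin n → ℝ) : Finset (ℝ × ℝ) := univ.image (pt a B)

lemma mem_pts {p : ℝ × ℝ} : p ∈ pts a B ↔ ∃ i, pt a B i = p := by
  unfold pts
  rw [mem_image]
  constructor
  · rintro ⟨i, -, h⟩; exact ⟨i, h⟩
  · rintro ⟨i, h⟩; exact ⟨i, mem_univ i, h⟩

lemma card_pts (ha : Function.Injective a) : #(pts a B) = n := by
  unfold pts
  rw [card_image_of_injective _ (pt_inj ha), card_univ, Fintype.card_fin]

/-- heights above a crossing point and cross products -/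
lemma ht_sub {i j : Fin n} (h : a i ≠ a j) (l : Fin n) :
    (a j - a i) * (ht a B l (Pool.Agent.H189R2.Lev.cr a B i j) -
      ht a B i (Pool.Agent.H189R2.Lev.cr a B i j)) = cr (pt a B i) (pt a B j) (pt a B l) := by
  unfold ht Pool.Agent.H189R2.Lev.cr cr pt
  have h1 : a i - a j ≠ 0 := sub_ne_zero.2 h
  field_simp
  ring

lemma gen_pts (ha : Function.Injective a) (hS : Simple a B) : Gen (pts a B) := by
  intro p hp q hq x hx hpq hpx hqx h0
  obtain ⟨i, rfl⟩ := mem_pts.1 hp
  obtain ⟨j, rfl⟩ := mem_pts.1 hq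
  obtain ⟨l, rfl⟩ := mem_pts.1 hx
  have hij : i ≠ j := fun h => hpq (by rw [h])
  have hil : i ≠ l := fun h => hpx (by rw [h])
  have hjl : j ≠ l := fun h => hqx (by rw [h])
  have haij : a i ≠ a j := fun h => hij (ha h)
  apply hS.2 i j l hij hil hjl
  refine ⟨Pool.Agent.H189R2.Lev.cr a B i j, (Pool.Agent.H189R2.Lev.ht_cr haij).symm, ?_⟩
  have h1 := ht_sub (B := B) haij l
  rw [h0] at h1
  have h2 := (mul_eq_zero.1 h1).resolve_left (sub_ne_zero.2 haij.symm)
  linarith

/-- crossings at level `k` are directed `k`-edges -/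
lemma crossing_D (ha : Function.Injective a) {k : ℕ} {q : Fin n × Fin n}
    (hq : q ∈ crossings a B k) :
    (a q.1 < a q.2 → D (pts a B) k (pt a B q.2) (pt a B q.1)) ∧
    (a q.2 < a q.1 → D (pts a B) k (pt a B q.1) (pt a B q.2)) := by
  obtain ⟨hlt, hne, hk⟩ := hq
  have hcard : ∀ p : ℝ × ℝ → Prop,
      #{x ∈ pts a B | p x} = {l | p (pt a B l)}.ncard := by
    intro p
    have e : ({x ∈ pts a B | p x} : Finset (ℝ × ℝ)) =
        (univ.filter (fun l => p (pt a B l))).image (pt a B) := by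
      ext x
      rw [mem_filter, mem_pts, mem_image]
      constructor
      · rintro ⟨⟨l, rfl⟩, h⟩; exact ⟨l, by simpa using h, rfl⟩
      · rintro ⟨l, h, rfl⟩; exact ⟨⟨l, rfl⟩, by simpa using h⟩
    have e2 : {l | p (pt a B l)} = ((univ.filter (fun l => p (pt a B l)) : Finset _) : Set _) := by
      ext l; simp
    rw [e, card_image_of_injective _ (pt_inj ha), e2, Set.ncard_coe_finset]
  constructor
  · intro h
    refine ⟨fun h2 => hne (congrArg Prod.fst h2).symm, ?_⟩
    rw [hcard, ← hk]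
    congr 1
    ext l
    simp only [Set.mem_ofPred_eq]
    have h1 := ht_sub (B := B) hne l
    rw [cr_swap, neg_pos, ← h1]
    have h2 : 0 < a q.2 - a q.1 := by linarith
    constructor
    · intro h3
      by_contra h4
      have := mul_nonneg h2.le (sub_nonneg.2 (not_lt.1 h4))
      linarith
    · intro h3
      exact mul_neg_of_pos_of_neg h2 (by linarith)
  · intro h
    refine ⟨fun h2 => hne (congrArg Prod.fst h2), ?_⟩
    rw [hcard, ← hk]
    congr 1
    ext l
    simp only [Set.mem_ofPred_eq]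
    have h1 := ht_sub (B := B) hne l
    rw [← h1]
    have h2 : a q.2 - a q.1 < 0 := by linarith
    constructor
    · intro h3
      by_contra h4
      have := mul_nonpos_of_nonpos_of_nonneg h2.le (sub_nonneg.2 (not_lt.1 h4))
      linarith
    · intro h3
      exact mul_pos_of_neg_of_neg h2 (by linarith)

/-- crossings at two opposite levels -/
lemma cross_pair (ha : Function.Injective a) (hS : Simple a B) {k k' : ℕ} (hk : k + k' + 2 = n) :
    (crossings a B k).ncard + (crossings a B k').ncard ≤ #(DD (pts a B) k) := by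
  have hfin : ∀ m, (crossings a B m).Finite := fun m => Set.toFinite _
  rw [Set.ncard_eq_toFinset_card _ (hfin k), Set.ncard_eq_toFinset_card _ (hfin k')]
  -- the edge directed to the left
  obtain ⟨φ, hφ⟩ : ∃ φ : Fin n × Fin n → (ℝ × ℝ) × (ℝ × ℝ), ∀ q, φ q =
      if a q.1 < a q.2 then (pt a B q.2, pt a B q.1) else (pt a B q.1, pt a B q.2) :=
    ⟨_, fun _ => rfl⟩
  have hmem : ∀ m, ∀ q ∈ crossings a B m, φ q ∈ DD (pts a B) m := by
    intro m q hq
    obtain ⟨h1, h2⟩ := crossing_D ha hq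
    rw [hφ, mem_DD]
    by_cases h : a q.1 < a q.2
    · rw [if_pos h]
      exact ⟨mem_pts.2 ⟨_, rfl⟩, mem_pts.2 ⟨_, rfl⟩, h1 h⟩
    · rw [if_neg h]
      exact ⟨mem_pts.2 ⟨_, rfl⟩, mem_pts.2 ⟨_, rfl⟩,
        h2 (lt_of_le_of_ne (not_lt.1 h) hq.2.1.symm)⟩
  have hleft : ∀ m, ∀ q ∈ crossings a B m, (φ q).2.1 < (φ q).1.1 := by
    intro m q hq
    rw [hφ]
    by_cases h : a q.1 < a q.2
    · rw [if_pos h]; exact h
    · rw [if_neg h]; exact lt_of_le_of_ne (not_lt.1 h) hq.2.1.symm
  have hinj : ∀ m, ∀ q ∈ crossings a B m, ∀ q' ∈ crossings a B m, φ q = φ q' → q = q' := by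
    intro m q hq q' hq' h
    have hl := hq.1
    have hl' := hq'.1
    rw [hφ, hφ] at h
    split_ifs at h with h1 h2 h2
    · exact Prod.ext (pt_inj ha (congrArg Prod.snd h)) (pt_inj ha (congrArg Prod.fst h))
    · exfalso
      have e1 : q.2 = q'.1 := pt_inj ha (congrArg Prod.fst h)
      have e2 : q.1 = q'.2 := pt_inj ha (congrArg Prod.snd h)
      rw [e1, e2] at hl
      exact lt_asymm hl hl'
    · exfalso
      have e1 : q.1 = q'.2 := pt_inj ha (congrArg Prod.fst h)
      have e2 : q.2 = q'.1 := pt_inj ha (congrArg Prod.snd h)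
      rw [e1, e2] at hl
      exact lt_asymm hl hl'
    · exact Prod.ext (pt_inj ha (congrArg Prod.fst h)) (pt_inj ha (congrArg Prod.snd h))
  have hG := gen_pts ha hS
  have hc := card_pts (B := B) ha
  -- images
  set I1 : Finset ((ℝ × ℝ) × (ℝ × ℝ)) := (hfin k).toFinset.image φ with hI1
  set I2 : Finset ((ℝ × ℝ) × (ℝ × ℝ)) := (hfin k').toFinset.image
    (fun q => ((φ q).2, (φ q).1)) with hI2
  have c1 : #I1 = #(hfin k).toFinset := by
    apply card_image_of_injOn
    intro q hq q' hq' h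
    rw [Set.Finite.coe_toFinset] at hq hq'
    exact hinj k q hq q' hq' h
  have c2 : #I2 = #(hfin k').toFinset := by
    apply card_image_of_injOn
    intro q hq q' hq' h
    rw [Set.Finite.coe_toFinset] at hq hq'
    exact hinj k' q hq q' hq' (Prod.ext (congrArg Prod.snd h) (congrArg Prod.fst h))
  rw [← c1, ← c2, ← card_union_of_disjoint]
  · apply card_le_card
    intro z hz
    rw [mem_union, hI1, hI2, mem_image, mem_image] at hz
    rcases hz with ⟨q, hq, rfl⟩ | ⟨q, hq, rfl⟩
    · rw [Set.Finite.mem_toFinset] at hq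
      exact hmem k q hq
    · rw [Set.Finite.mem_toFinset] at hq
      have h1 := mem_DD.1 (hmem k' q hq)
      rw [mem_DD]
      refine ⟨h1.2.1, h1.1, ?_⟩
      rw [D_rev hG h1.1 h1.2.1]
      refine ⟨by omega, ?_⟩
      have e : #(pts a B) - 2 - k = k' := by omega
      rw [e]
      exact h1.2.2
  · rw [disjoint_left]
    intro z hz1 hz2
    rw [hI1, mem_image] at hz1
    rw [hI2, mem_image] at hz2
    obtain ⟨q, hq, rfl⟩ := hz1
    obtain ⟨q', hq', h⟩ := hz2
    rw [Set.Finite.mem_toFinset] at hq hq'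
    have h1 := hleft k q hq
    have h2 := hleft k' q' hq'
    have e1 : (φ q').2 = (φ q).1 := congrArg Prod.fst h
    have e2 : (φ q').1 = (φ q).2 := congrArg Prod.snd h
    rw [e1, e2] at h2
    exact lt_asymm h1 h2

/-- no crossing at the highest level -/
lemma cross_big (hS : Simple a B) {k : ℕ} (hk : n ≤ k + 1) : (crossings a B k).ncard = 0 := by
  rw [Set.ncard_eq_zero (Set.toFinite _)]
  ext q
  simp only [Set.mem_empty_iff_false, iff_false]
  rintro ⟨hlt, hne, h⟩
  have h1 := count3 hS hlt.ne (Pool.Agent.H189R2.Lev.ht_cr (B := B) hne).symm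
  omega

/-- two opposite levels -/
lemma psi_pair (ha : Function.Injective a) (hS : Simple a B) {k k' M : ℕ} (hk : k + k' + 1 = n)
    (hM : ∀ j, #(DD (pts a B) j) ≤ M) :
    psi a B k + psi a B k' ≤ ((2 * M : ℕ) : ℕ∞) := by
  have h1 := psi_le hS (k := k) (by omega)
  have h2 := psi_le hS (k := k') (by omega)
  refine (add_le_add h1 h2).trans ?_
  rw [← Nat.cast_add]
  have h3 : (crossings a B k).ncard + (if k' = 0 then 0 else (crossings a B (k' - 1)).ncard) ≤ M := by
    by_cases h : k' = 0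
    · rw [if_pos h, cross_big hS (by omega)]
      exact Nat.zero_le _
    · rw [if_neg h]
      exact (cross_pair ha hS (by omega)).trans (hM k)
  have h4 : (crossings a B k').ncard + (if k = 0 then 0 else (crossings a B (k - 1)).ncard) ≤ M := by
    by_cases h : k = 0
    · rw [if_pos h, cross_big hS (by omega)]
      exact Nat.zero_le _
    · rw [if_neg h]
      exact (cross_pair ha hS (by omega)).trans (hM k')
  exact_mod_cast (by omega :
    (crossings a B k).ncard + (if k = 0 then 0 else (crossings a B (k - 1)).ncard) +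
      ((crossings a B k').ncard + (if k' = 0 then 0 else (crossings a B (k' - 1)).ncard)) ≤ 2 * M)

/-- the line `i` is on the upper or the lower envelope of the family `F` -/
def OnEnvelope (a B : Fin n → ℝ) (F : Finset (Fin n)) (i : Fin n) : Prop :=
  ∃ x : ℝ, (∀ j ∈ F, j ≠ i → ht a B j x < ht a B i x) ∨ (∀ j ∈ F, j ≠ i → ht a B i x < ht a B j x)

/-- the line `l` leaves the region between the lower and the upper envelope of the family `F` -/
def Leaves (a B : Fin n → ℝ) (F : Finset (Fin n)) (l : Fin n) : Prop :=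
  ∃ x : ℝ, (∀ j ∈ F, ht a B j x < ht a B l x) ∨ (∀ j ∈ F, ht a B l x < ht a B j x)

lemma not_mem_hull_of_lt {x : ℝ} {p : ℝ × ℝ} {T : Set (ℝ × ℝ)}
    (h : ∀ q ∈ T, q.1 * x + q.2 < p.1 * x + p.2) : p ∉ convexHull ℝ T := by
  intro hcon
  have hc : Convex ℝ {q : ℝ × ℝ | q.1 * x + q.2 < p.1 * x + p.2} := by
    rintro u hu v hv s t hs ht hst
    simp only [Set.mem_ofPred_eq] at hu hv ⊢
    have e : (s • u + t • v).1 * x + (s • u + t • v).2 =
        s * (u.1 * x + u.2) + t * (v.1 * x + v.2) := by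
      simp only [Prod.fst_add, Prod.smul_fst, Prod.snd_add, Prod.smul_snd, smul_eq_mul]; ring
    rw [e]
    have e2 : p.1 * x + p.2 = s * (p.1 * x + p.2) + t * (p.1 * x + p.2) := by
      rw [← add_mul, hst, one_mul]
    rw [e2]
    rcases hs.eq_or_lt with h0 | h0
    · rw [← h0] at hst ⊢
      have : t = 1 := by linarith
      rw [this]; linarith
    · have := mul_lt_mul_of_pos_left hu h0
      have := mul_le_mul_of_nonneg_left hv.le ht
      linarith
  have h9 : p.1 * x + p.2 < p.1 * x + p.2 := convexHull_min h hc hcon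
  exact lt_irrefl _ h9

lemma not_mem_hull_of_gt {x : ℝ} {p : ℝ × ℝ} {T : Set (ℝ × ℝ)}
    (h : ∀ q ∈ T, p.1 * x + p.2 < q.1 * x + q.2) : p ∉ convexHull ℝ T := by
  intro hcon
  have hc : Convex ℝ {q : ℝ × ℝ | p.1 * x + p.2 < q.1 * x + q.2} := by
    rintro u hu v hv s t hs ht hst
    simp only [Set.mem_ofPred_eq] at hu hv ⊢
    have e : (s • u + t • v).1 * x + (s • u + t • v).2 =
        s * (u.1 * x + u.2) + t * (v.1 * x + v.2) := by
      simp only [Prod.fst_add, Prod.smul_fst, Prod.snd_add, Prod.smul_snd, smul_eq_mul]; ring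
    rw [e]
    have e2 : p.1 * x + p.2 = s * (p.1 * x + p.2) + t * (p.1 * x + p.2) := by
      rw [← add_mul, hst, one_mul]
    rw [e2]
    rcases hs.eq_or_lt with h0 | h0
    · rw [← h0] at hst ⊢
      have : t = 1 := by linarith
      rw [this]; linarith
    · have := mul_lt_mul_of_pos_left hu h0
      have := mul_le_mul_of_nonneg_left hv.le ht
      linarith
  have h9 : p.1 * x + p.2 < p.1 * x + p.2 := convexHull_min h hc hcon
  exact lt_irrefl _ h9

/-- the dual points of a family of envelope lines are in convex position -/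
lemma convexPosition_of_envelope (F : Finset (Fin n))
    (hF : ∀ i ∈ F, OnEnvelope a B F i) : ConvexPosition (F.image (pt a B)) := by
  intro p hp
  rw [mem_image] at hp
  obtain ⟨i, hi, rfl⟩ := hp
  obtain ⟨x, hx⟩ := hF i hi
  rcases hx with hx | hx
  · apply not_mem_hull_of_lt (x := x)
    rintro q ⟨hq1, hq2⟩
    rw [mem_coe, mem_image] at hq1
    obtain ⟨j, hj, rfl⟩ := hq1
    exact hx j hj (fun h => hq2 (by rw [h]; rfl))
  · apply not_mem_hull_of_gt (x := x)
    rintro q ⟨hq1, hq2⟩
    rw [mem_coe, mem_image] at hq1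
    obtain ⟨j, hj, rfl⟩ := hq1
    exact hx j hj (fun h => hq2 (by rw [h]; rfl))

/-- a line whose dual point is outside the hull leaves the region between the envelopes -/
lemma leaves_of_notMem (F : Finset (Fin n)) (l : Fin n)
    (h : pt a B l ∉ convexHull ℝ ((F.image (pt a B) : Finset (ℝ × ℝ)) : Set (ℝ × ℝ))) :
    Leaves a B F l := by
  obtain ⟨f, u, hu1, hu2⟩ := geometric_hahn_banach_point_closed (convex_convexHull ℝ _)
    ((Finset.finite_toSet _).isClosed_convexHull ℝ) h
  obtain ⟨α, hα⟩ : ∃ α, α = f (1, 0) := ⟨_, rfl⟩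
  obtain ⟨β, hβ⟩ : ∃ β, β = f (0, 1) := ⟨_, rfl⟩
  have hf : ∀ x : ℝ × ℝ, f x = α * x.1 + β * x.2 := by
    intro x
    have : x = x.1 • ((1 : ℝ), (0 : ℝ)) + x.2 • ((0 : ℝ), (1 : ℝ)) := by
      ext <;> simp
    conv_lhs => rw [this]
    rw [map_add, map_smul, map_smul, smul_eq_mul, smul_eq_mul, hα, hβ]; ring
  have hlt : ∀ j ∈ F, α * a l + β * B l < α * a j + β * B j := by
    intro j hj
    have h1 := hu2 (pt a B j) (subset_convexHull ℝ _ (mem_coe.2 (mem_image_of_mem _ hj)))
    rw [hf] at h1 hu1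
    exact hu1.trans h1
  -- perturb to a non-zero second coordinate
  obtain ⟨β', hβ0, hβ'⟩ : ∃ β' : ℝ, β' ≠ 0 ∧ ∀ j ∈ F, α * a l + β' * B l < α * a j + β' * B j := by
    have hcont : ∀ j : Fin n, Continuous (fun b : ℝ => α * a j + b * B j) := by
      intro j; fun_prop
    have hev : ∀ᶠ b in nhds β, ∀ j ∈ F, α * a l + b * B l < α * a j + b * B j := by
      rw [Filter.eventually_all_finset]
      intro j hj
      exact ((hcont l).tendsto β).eventually_lt ((hcont j).tendsto β) (hlt j hj)
    have hne : ∃ᶠ b in nhds β, b ≠ 0 := by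
      by_cases h0 : β = 0
      · rw [h0]
        have : ∀ᶠ b : ℝ in nhdsWithin 0 {0}ᶜ, b ≠ 0 := by
          filter_upwards [self_mem_nhdsWithin] with b hb
          exact hb
        exact this.frequently.filter_mono nhdsWithin_le_nhds
      · have h1 : ∀ᶠ b in nhds β, b ≠ 0 := isOpen_ne.eventually_mem h0
        exact h1.frequently
    obtain ⟨b, hb1, hb2⟩ := (hne.and_eventually hev).exists
    exact ⟨b, hb1, hb2⟩
  rcases lt_or_gt_of_ne hβ0 with h0 | h0
  · refine ⟨α / β', Or.inl ?_⟩
    intro j hj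
    have h1 := hβ' j hj
    unfold ht
    have e : ∀ i : Fin n, a i * (α / β') + B i = (α * a i + β' * B i) / β' := by
      intro i; field_simp
    rw [e, e]
    exact (div_lt_div_right_of_neg h0).2 h1
  · refine ⟨α / β', Or.inr ?_⟩
    intro j hj
    have h1 := hβ' j hj
    unfold ht
    have e : ∀ i : Fin n, a i * (α / β') + B i = (α * a i + β' * B i) / β' := by
      intro i; field_simp
    rw [e, e]
    exact (div_lt_div_iff_of_pos_right h0).2 h1

/-- **opposite levels of an arrangement that splits into `c` families of envelope lines** -/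
theorem levels_main (ha : Function.Injective a) (hS : Simple a B) {c : ℕ}
    (F : Fin c → Finset (Fin n)) (hF : ∀ t, ∀ i ∈ F t, OnEnvelope a B (F t) i)
    (hcov : ∀ i, ∃ t, i ∈ F t) {k k' : ℕ} (hk : k + k' + 1 = n) :
    psi a B k + psi a B k' ≤
      ((2 * (n + 2 * ∑ t, #{l | Leaves a B (F t) l}) : ℕ) : ℕ∞) := by
  apply psi_pair ha hS hk
  intro j
  refine (cover_dir (gen_pts ha hS) j (fun t => (F t).image (pt a B))
    (fun t => convexPosition_of_envelope (F t) (hF t)) ?_).trans ?_
  · intro p hp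
    obtain ⟨i, rfl⟩ := mem_pts.1 hp
    obtain ⟨t, ht⟩ := hcov i
    exact ⟨t, mem_image_of_mem _ ht⟩
  · rw [card_pts ha]
    refine Nat.add_le_add_left (Nat.mul_le_mul_left 2 (sum_le_sum fun t _ => ?_)) n
    have : ({p ∈ pts a B | p ∉ convexHull ℝ (((F t).image (pt a B) : Finset (ℝ × ℝ)) :
        Set (ℝ × ℝ))} : Finset (ℝ × ℝ)) ⊆ ({l | Leaves a B (F t) l} : Finset (Fin n)).image
          (pt a B) := by
      intro p hp
      rw [mem_filter] at hp
      obtain ⟨l, rfl⟩ := mem_pts.1 hp.1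
      rw [mem_image]
      exact ⟨l, by rw [mem_filter]; exact ⟨mem_univ _, leaves_of_notMem (F t) l hp.2⟩, rfl⟩
    exact (card_le_card this).trans card_image_le

/-- the counted form -/
theorem levels_main' (ha : Function.Injective a) (hS : Simple a B) {c : ℕ}
    (F : Fin c → Finset (Fin n)) (hF : ∀ t, ∀ i ∈ F t, OnEnvelope a B (F t) i)
    (hcov : ∀ i, ∃ t, i ∈ F t) {k k' : ℕ} (hk : k + k' + 1 = n) :
    psi a B k + psi a B k' + ((2 * n : ℕ) : ℕ∞) ≤ ((4 * c * n : ℕ) : ℕ∞) := by
  refine (add_le_add_left (levels_main ha hS F hF hcov hk) _).trans ?_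
  rw [← Nat.cast_add]
  have h2 : ∀ t : Fin c, #{l | Leaves a B (F t) l} + #(F t) ≤ n := by
    intro t
    rw [← card_union_of_disjoint]
    · exact (card_le_univ _).trans (by rw [Fintype.card_fin])
    · rw [disjoint_left]
      intro l hl1 hl2
      rw [mem_filter] at hl1
      obtain ⟨x, hx | hx⟩ := hl1.2
      · exact lt_irrefl _ (hx l hl2)
      · exact lt_irrefl _ (hx l hl2)
  have h3 : n ≤ ∑ t : Fin c, #(F t) := by
    have : (univ : Finset (Fin n)) ⊆ (univ : Finset (Fin c)).biUnion F := by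
      intro i _
      obtain ⟨t, ht⟩ := hcov i
      rw [mem_biUnion]
      exact ⟨t, mem_univ t, ht⟩
    have := (card_le_card this).trans card_biUnion_le
    rwa [card_univ, Fintype.card_fin] at this
  have h4 : ∑ t : Fin c, (#{l | Leaves a B (F t) l} + #(F t)) ≤ ∑ _t : Fin c, n :=
    sum_le_sum fun t _ => h2 t
  rw [sum_add_distrib, sum_const, card_univ, Fintype.card_fin, smul_eq_mul] at h4
  have h5 : 4 * c * n = 4 * (c * n) := by ring
  rw [h5]
  exact_mod_cast (by omega :
    2 * (n + 2 * ∑ t, #{l | Leaves a B (F t) l}) + 2 * n ≤ 4 * (c * n))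

end dual

end Pool.Agent.TH511.HLC
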