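import Pool.Agent.TH511.HLC.Lev
import Pool.Agent.TH511.HLC.Cells

/-!
# Levels of arrangements with `m` reference points
-/

set_option autoImplicit false

namespace Pool.Agent.TH511.HLC

open Finset Pool.Agent.W296.HL

open Pool.Agent.H189R2.Lev (ht)

open Pool.Agent.Results.MP_a08d0a_co.SmoothedLevel (Simple crossings psi psi_le count3)

open scoped Classical

variable {n : ℕ} {a B : Fin n → ℝ}

/-- the lines that pass below the same points `(x t, y t)` as the line `i` -/
noncomputable def SameSide (a B : Fin n → ℝ) {m : ℕ} (x y : Fin m → ℝ) (i : Fin n) :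
    Finset (Fin n) :=
  {j | ∀ t, ht a B i (x t) < y t ↔ ht a B j (x t) < y t}

/-- **opposite levels of an arrangement with `m` reference points** -/
theorem levels_cells (ha : Function.Injective a) (hS : Simple a B) {m : ℕ} (x y : Fin m → ℝ)
    (hne : ∀ t l, ht a B l (x t) ≠ y t)
    (hv : ∀ i, OnEnvelope a B (SameSide a B x y i) i) {k k' : ℕ} (hk : k + k' + 1 = n) :
    psi a B k + psi a B k' ≤ ((2 * ((2 * m + 1) * n) : ℕ) : ℕ∞) := by
  apply psi_pair ha hS hk
  intro j
  have h := cells_dir (gen_pts ha hS) j (fun t => x t) (fun _ => 1) (fun t => y t) (by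
      intro t p hp
      obtain ⟨i, rfl⟩ := mem_pts.1 hp
      have := hne t i
      unfold ht at this
      unfold pt
      intro h
      apply this
      linarith) (by
      intro p hp
      obtain ⟨i, rfl⟩ := mem_pts.1 hp
      obtain ⟨z, hz⟩ := hv i
      have hconv : ∀ q : ℝ × ℝ, q ∈ pts a B →
          (∀ t, (y t < x t * (pt a B i).1 + 1 * (pt a B i).2 ↔ y t < x t * q.1 + 1 * q.2)) →
          q ≠ pt a B i → ∃ j ∈ SameSide a B x y i, j ≠ i ∧ q = pt a B j := by
        intro q hq hq2 hq3
        obtain ⟨l, rfl⟩ := mem_pts.1 hq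
        refine ⟨l, ?_, fun h => hq3 (by rw [h]), rfl⟩
        unfold SameSide
        rw [mem_filter]
        refine ⟨mem_univ _, fun t => ?_⟩
        have h1 := hq2 t
        have e : ∀ r : Fin n, x t * (pt a B r).1 + 1 * (pt a B r).2 = ht a B r (x t) := by
          intro r; unfold pt ht; ring
        rw [e, e] at h1
        have h2 := hne t i
        have h3 := hne t l
        constructor
        · intro h4
          refine lt_of_le_of_ne (not_lt.1 fun h5 => ?_) h3
          exact lt_asymm (h1.2 h5) h4
        · intro h4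
          refine lt_of_le_of_ne (not_lt.1 fun h5 => ?_) h2
          exact lt_asymm (h1.1 h5) h4
      rcases hz with hz | hz
      · apply not_mem_hull_of_lt (x := z)
        rintro q ⟨hq1, hq2, hq3⟩
        obtain ⟨l, hl, hli, rfl⟩ := hconv q hq1 hq2 hq3
        exact hz l hl hli
      · apply not_mem_hull_of_gt (x := z)
        rintro q ⟨hq1, hq2, hq3⟩
        obtain ⟨l, hl, hli, rfl⟩ := hconv q hq1 hq2 hq3
        exact hz l hl hli)
  rwa [card_pts ha] at h

end Pool.Agent.TH511.HLC
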