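import Pool.Agent.W296.HL4

/-!
# Bisectors of unions of sets in convex position
-/

set_option autoImplicit false

namespace Pool.Agent.TH511.HLC

open Finset Pool.Agent.W296.HL

section

open scoped Classical

variable {P : Finset (ℝ × ℝ)}

/-- the degree inequality for an arbitrary set of points on one side of a line through `p` -/
lemma deg_set (hP : Gen P) (hE : Even #P) (S : ℝ × ℝ → Prop) {p : ℝ × ℝ} (hp : p ∈ P)
    (hr : p ∉ convexHull ℝ {q : ℝ × ℝ | q ∈ P ∧ S q ∧ q ≠ p}) :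
    #{q ∈ P | S q ∧ Hv P p q} ≤ #{q ∈ P | ¬ S q ∧ Hv P p q} + 1 := by
  set r : ℝ × ℝ → ℕ := fun q => if S q ∨ q = p then 1 else 0 with hrd
  have hrp : r p = 1 := by simp [hrd]
  have hle : ∀ q, r p ≤ r q ↔ (S q ∨ q = p) := by
    intro q
    rw [hrp]
    by_cases h : S q ∨ q = p
    · simp [hrd, h]
    · simp [hrd, h]
  have h := deg_ineq hP hE r hp (by
    intro hcon
    apply hr
    refine convexHull_mono ?_ hcon
    rintro q ⟨h1, h2, h3⟩
    exact ⟨h1, ((hle q).1 h2).resolve_right h3, h3⟩)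
  have e1 : ({q ∈ P | r p ≤ r q ∧ Hv P p q} : Finset (ℝ × ℝ)) = {q ∈ P | S q ∧ Hv P p q} := by
    apply filter_congr
    intro q _
    rw [hle]
    constructor
    · rintro ⟨h1 | h1, h2⟩
      · exact ⟨h1, h2⟩
      · exact absurd h1.symm h2.1
    · rintro ⟨h1, h2⟩
      exact ⟨Or.inl h1, h2⟩
  have e2 : ({q ∈ P | ¬ r p ≤ r q ∧ Hv P p q} : Finset (ℝ × ℝ)) =
      {q ∈ P | ¬ S q ∧ Hv P p q} := by
    apply filter_congr
    intro q _
    rw [hle]
    constructor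
    · rintro ⟨h1, h2⟩
      exact ⟨fun h3 => h1 (Or.inl h3), h2⟩
    · rintro ⟨h1, h2⟩
      refine ⟨?_, h2⟩
      rintro (h3 | h3)
      · exact h1 h3
      · exact h2.1 h3.symm
  rw [e1, e2] at h
  exact h

/-- ordered pairs crossing the boundary of a convex set -/
lemma cutHH (hP : Gen P) (hE : Even #P) {K : Set (ℝ × ℝ)} (hK : Convex ℝ K) :
    #{z ∈ HH P | z.1 ∉ K ∧ z.2 ∈ K} ≤ #{p ∈ P | p ∉ K} := by
  obtain ⟨r, h1, h2, h3⟩ := exists_rank hK #{p ∈ P | p ∉ K} P rfl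
  set n := #{p ∈ P | p ∉ K} with hn
  have hw := weighted hP hE r (fun p => if p ∈ K then 0 else 1)
    (fun p _ => by split_ifs <;> norm_num)
    (fun p hp hy => h3 p hp (by
      intro hpK
      apply hy
      simp [hpK]))
  have hsum : (∑ p ∈ P, (if p ∈ K then (0 : ℤ) else 1)) = n := by
    rw [hn, card_filter]
    push_cast
    refine sum_congr rfl fun p _ => ?_
    by_cases h : p ∈ K <;> simp [h]
  rw [hsum] at hw
  set A : Finset ((ℝ × ℝ) × (ℝ × ℝ)) := {z ∈ HH P | z.1 ∉ K ∧ z.2 ∈ K} with hA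
  set A' : Finset ((ℝ × ℝ) × (ℝ × ℝ)) := {z ∈ HH P | z.1 ∈ K ∧ z.2 ∉ K} with hA'
  have hAA : #A = #A' := by
    refine card_bij' (fun z _ => (z.2, z.1)) (fun z _ => (z.2, z.1)) ?_ ?_ ?_ ?_
    · intro z hz
      rw [hA, mem_filter, mem_HH] at hz
      rw [hA', mem_filter, mem_HH]
      exact ⟨⟨hz.1.2.1, hz.1.1, hz.1.2.2.symm⟩, hz.2.2, hz.2.1⟩
    · intro z hz
      rw [hA', mem_filter, mem_HH] at hz
      rw [hA, mem_filter, mem_HH]
      exact ⟨⟨hz.1.2.1, hz.1.1, hz.1.2.2.symm⟩, hz.2.2, hz.2.1⟩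
    · intro z _; rfl
    · intro z _; rfl
  have hlow : (#A + #A' : ℤ) ≤ 2 * n := by
    refine le_trans ?_ hw
    rw [hA, hA', card_filter, card_filter]
    push_cast
    rw [← sum_add_distrib]
    refine sum_le_sum fun z hz => ?_
    rw [mem_HH] at hz
    obtain ⟨hz1, hz2, hz3⟩ := hz
    by_cases hk1 : z.1 ∈ K <;> by_cases hk2 : z.2 ∈ K
    · simp [hk1, hk2]
    · have e1 := h1 z.1 hz1 hk1
      have e2 := h2 z.2 hz2 hk2
      have e3 : r z.2 ≤ r z.1 := by omega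
      simp [hk1, hk2, eps, e3]
    · have e1 := h2 z.1 hz1 hk1
      have e2 := h1 z.2 hz2 hk2
      have e3 : r z.1 ≤ r z.2 := by omega
      simp [hk1, hk2, eps, e3]
    · simp only [hk1, hk2, eps, if_false, not_false_eq_true, and_false, and_true, add_zero, one_mul]
      split_ifs <;> omega
  omega

/-- the reversed pairs -/
lemma cutHH' (hP : Gen P) (hE : Even #P) {K : Set (ℝ × ℝ)} (hK : Convex ℝ K) :
    #{z ∈ HH P | z.1 ∈ K ∧ z.2 ∉ K} ≤ #{p ∈ P | p ∉ K} := by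
  refine le_trans (le_of_eq ?_) (cutHH hP hE hK)
  refine card_bij' (fun z _ => (z.2, z.1)) (fun z _ => (z.2, z.1)) ?_ ?_ ?_ ?_
  · intro z hz
    rw [mem_filter, mem_HH] at hz ⊢
    exact ⟨⟨hz.1.2.1, hz.1.1, hz.1.2.2.symm⟩, hz.2.2, hz.2.1⟩
  · intro z hz
    rw [mem_filter, mem_HH] at hz ⊢
    exact ⟨⟨hz.1.2.1, hz.1.1, hz.1.2.2.symm⟩, hz.2.2, hz.2.1⟩
  · intro z _; rfl
  · intro z _; rfl

/-- **patterns with respect to a family of convex sets**: if every point `p` of `P` is a vertex of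
the convex hull of the points of `P` that lie in all the members containing `p`, then
`2 h ≤ |P| + 2 ∑ |P \ K_i|`. -/
theorem pattern (hP : Gen P) (hE : Even #P) {s : ℕ} (K : Fin s → Set (ℝ × ℝ))
    (hK : ∀ i, Convex ℝ (K i))
    (hv : ∀ p ∈ P, p ∉ convexHull ℝ {q : ℝ × ℝ | q ∈ P ∧ (∀ i, p ∈ K i → q ∈ K i) ∧ q ≠ p}) :
    2 * {L | IsBisector P L}.ncard ≤ #P + 2 * ∑ i, #{p ∈ P | p ∉ K i} := by
  obtain ⟨le, hle⟩ : ∃ le : ℝ × ℝ → ℝ × ℝ → Prop, ∀ p q, le p q ↔ ∀ i, p ∈ K i → q ∈ K i :=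
    ⟨fun p q => ∀ i, p ∈ K i → q ∈ K i, fun _ _ => Iff.rfl⟩
  set σ : ℝ × ℝ → ℝ × ℝ → ℤ := fun p q => if le p q then 1 else -1 with hσ
  set Δ : (ℝ × ℝ) × (ℝ × ℝ) → ℤ := fun z => ∑ i : Fin s,
    ((if z.1 ∉ K i ∧ z.2 ∈ K i then (1 : ℤ) else 0) + (if z.1 ∈ K i ∧ z.2 ∉ K i then 1 else 0))
    with hΔ
  have hA : ∑ z ∈ HH P, σ z.1 z.2 ≤ #P := by
    have e : ∑ z ∈ HH P, σ z.1 z.2 =
        ∑ p ∈ P, ((#{q ∈ P | le p q ∧ Hv P p q} : ℤ) - #{q ∈ P | ¬ le p q ∧ Hv P p q}) := by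
      unfold HH
      rw [sum_filter, sum_product]
      refine sum_congr rfl fun p _ => ?_
      rw [card_filter, card_filter]
      push_cast
      rw [← sum_sub_distrib]
      refine sum_congr rfl fun q _ => ?_
      rw [hσ]
      by_cases h1 : Hv P p q <;> by_cases h2 : le p q <;> simp [h1, h2]
    rw [e]
    have : (#P : ℤ) = ∑ p ∈ P, (1 : ℤ) := by simp
    rw [this]
    refine sum_le_sum fun p hp => ?_
    have h1 := deg_set hP hE (le p) hp (by
      intro hcon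
      apply hv p hp
      refine convexHull_mono ?_ hcon
      rintro q ⟨h1, h2, h3⟩
      exact ⟨h1, (hle p q).1 h2, h3⟩)
    omega
  have hB : ∑ z ∈ HH P, σ z.2 z.1 = ∑ z ∈ HH P, σ z.1 z.2 := by
    refine sum_nbij' (fun z => (z.2, z.1)) (fun z => (z.2, z.1)) ?_ ?_ ?_ ?_ ?_
    · intro z hz; rw [mem_HH] at hz ⊢; exact ⟨hz.2.1, hz.1, hz.2.2.symm⟩
    · intro z hz; rw [mem_HH] at hz ⊢; exact ⟨hz.2.1, hz.1, hz.2.2.symm⟩
    · intro z _; rfl
    · intro z _; rfl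
    · intro z _; rfl
  have hC : ∑ z ∈ HH P, Δ z ≤ 2 * ∑ i, (#{p ∈ P | p ∉ K i} : ℤ) := by
    rw [hΔ, sum_comm, mul_sum]
    refine sum_le_sum fun i _ => ?_
    rw [sum_add_distrib]
    have h1 := cutHH hP hE (hK i)
    have h2 := cutHH' hP hE (hK i)
    rw [card_filter] at h1 h2
    have h1' : (∑ z ∈ HH P, (if z.1 ∉ K i ∧ z.2 ∈ K i then (1 : ℤ) else 0)) ≤
        #{p ∈ P | p ∉ K i} := by exact_mod_cast h1
    have h2' : (∑ z ∈ HH P, (if z.1 ∈ K i ∧ z.2 ∉ K i then (1 : ℤ) else 0)) ≤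
        #{p ∈ P | p ∉ K i} := by exact_mod_cast h2
    linarith
  have hmain : (2 * #(HH P) : ℤ) ≤ ∑ z ∈ HH P, (σ z.1 z.2 + σ z.2 z.1 + 2 * Δ z) := by
    rw [mul_comm, ← nsmul_eq_mul, ← sum_const]
    refine sum_le_sum fun z _ => ?_
    have hnn : ∀ i ∈ (Finset.univ : Finset (Fin s)),
        (0 : ℤ) ≤ ((if z.1 ∉ K i ∧ z.2 ∈ K i then (1 : ℤ) else 0) +
          (if z.1 ∈ K i ∧ z.2 ∉ K i then 1 else 0)) := by
      intro i _
      split_ifs <;> norm_num
    have hA0 : (0 : ℤ) ≤ ∑ i : Fin s, (if z.1 ∉ K i ∧ z.2 ∈ K i then (1 : ℤ) else 0) :=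
      sum_nonneg fun i _ => by split_ifs <;> norm_num
    have hB0 : (0 : ℤ) ≤ ∑ i : Fin s, (if z.1 ∈ K i ∧ z.2 ∉ K i then (1 : ℤ) else 0) :=
      sum_nonneg fun i _ => by split_ifs <;> norm_num
    have hΔz : Δ z = ∑ i : Fin s, (if z.1 ∉ K i ∧ z.2 ∈ K i then (1 : ℤ) else 0) +
        ∑ i : Fin s, (if z.1 ∈ K i ∧ z.2 ∉ K i then (1 : ℤ) else 0) := by
      rw [hΔ]
      exact sum_add_distrib
    have h1 : ¬ le z.1 z.2 → (1 : ℤ) ≤
        ∑ i : Fin s, (if z.1 ∈ K i ∧ z.2 ∉ K i then (1 : ℤ) else 0) := by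
      intro h
      rw [hle] at h
      push Not at h
      obtain ⟨i, hi⟩ := h
      refine le_trans ?_ (single_le_sum (f := fun i : Fin s =>
        (if z.1 ∈ K i ∧ z.2 ∉ K i then (1 : ℤ) else 0))
        (fun j _ => by split_ifs <;> norm_num) (mem_univ i))
      simp [hi.1, hi.2]
    have h2 : ¬ le z.2 z.1 → (1 : ℤ) ≤
        ∑ i : Fin s, (if z.1 ∉ K i ∧ z.2 ∈ K i then (1 : ℤ) else 0) := by
      intro h
      rw [hle] at h
      push Not at h
      obtain ⟨i, hi⟩ := h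
      refine le_trans ?_ (single_le_sum (f := fun i : Fin s =>
        (if z.1 ∉ K i ∧ z.2 ∈ K i then (1 : ℤ) else 0))
        (fun j _ => by split_ifs <;> norm_num) (mem_univ i))
      simp [hi.1, hi.2]
    rw [hΔz, hσ]
    dsimp only
    by_cases c1 : le z.1 z.2 <;> by_cases c2 : le z.2 z.1
    · rw [if_pos c1, if_pos c2]; linarith
    · rw [if_pos c1, if_neg c2]; have := h2 c2; linarith
    · rw [if_neg c1, if_pos c2]; have := h1 c1; linarith
    · rw [if_neg c1, if_neg c2]; have := h1 c1; have := h2 c2; linarith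
  rw [sum_add_distrib, sum_add_distrib, hB, ← mul_sum] at hmain
  have h3 := two_mul_ncard_le P
  have h4 : (#(HH P) : ℤ) ≤ #P + 2 * ∑ i, (#{p ∈ P | p ∉ K i} : ℤ) := by linarith
  have h5 : #(HH P) ≤ #P + 2 * ∑ i, #{p ∈ P | p ∉ K i} := by exact_mod_cast h4
  exact h3.trans h5

/-- the points of the finite set `A` are in convex position -/
def ConvexPosition (A : Finset (ℝ × ℝ)) : Prop :=
  ∀ p ∈ A, p ∉ convexHull ℝ ((A : Set (ℝ × ℝ)) \ {p})

/-- a point of a set in convex position is an extreme point of the convex hull -/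
lemma extreme {A : Finset (ℝ × ℝ)} (hA : ConvexPosition A) {p : ℝ × ℝ} (hp : p ∈ A)
    {T : Set (ℝ × ℝ)} (hT : T ⊆ convexHull ℝ (A : Set (ℝ × ℝ))) (hpT : p ∉ T) :
    p ∉ convexHull ℝ T := by
  intro hcon
  have hfin : ((A : Set (ℝ × ℝ)) \ {p}).Finite := A.finite_toSet.subset Set.sdiff_subset
  obtain ⟨f, u, hu1, hu2⟩ := geometric_hahn_banach_point_closed (convex_convexHull ℝ _)
    (hfin.isClosed_convexHull ℝ) (hA p hp)
  -- f p < u < f q for the other points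
  have hge : ∀ x ∈ convexHull ℝ (A : Set (ℝ × ℝ)), x ≠ p → f p < f x := by
    intro x hx hxp
    have hins : (A : Set (ℝ × ℝ)) = insert p ((A : Set (ℝ × ℝ)) \ {p}) := by
      rw [Set.insert_sdiff_singleton, Set.insert_eq_of_mem (mem_coe.2 hp)]
    rcases Set.eq_empty_or_nonempty ((A : Set (ℝ × ℝ)) \ {p}) with h0 | h0
    · rw [hins, h0] at hx
      simp only [insert_empty_eq, convexHull_singleton, Set.mem_singleton_iff] at hx
      exact absurd hx hxp
    · rw [hins, convexHull_insert h0] at hx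
      rw [mem_convexJoin] at hx
      obtain ⟨a, ha, b, hb, hab⟩ := hx
      rw [Set.mem_singleton_iff] at ha
      subst ha
      obtain ⟨s, t, hs, ht, hst, rfl⟩ := hab
      have hfb := hu2 b hb
      have ht0 : 0 < t := by
        rcases ht.lt_or_eq with h | h
        · exact h
        · exfalso
          apply hxp
          rw [← h] at hst ⊢
          rw [add_zero] at hst
          rw [hst]; simp
      rw [map_add, map_smul, map_smul, smul_eq_mul, smul_eq_mul]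
      have : s = 1 - t := by linarith
      rw [this]
      nlinarith
  have hsub : T ⊆ {x | f p < f x} := by
    intro x hx
    exact hge x (hT hx) (by rintro rfl; exact hpT hx)
  have hconv : Convex ℝ {x : ℝ × ℝ | f p < f x} :=
    convex_halfSpace_gt f.toLinearMap.isLinear _
  have h9 : f p < f p := convexHull_min hsub hconv hcon
  exact lt_irrefl _ h9

/-- **covers by sets in convex position**, refined form -/
theorem cover (hP : Gen P) (hE : Even #P) {c : ℕ} (A : Fin c → Finset (ℝ × ℝ))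
    (hA : ∀ i, ConvexPosition (A i)) (hcov : ∀ p ∈ P, ∃ i, p ∈ A i) :
    2 * {L | IsBisector P L}.ncard ≤
      #P + 2 * ∑ i, #{p ∈ P | p ∉ convexHull ℝ (A i : Set (ℝ × ℝ))} := by
  apply pattern hP hE (fun i => convexHull ℝ (A i : Set (ℝ × ℝ))) (fun i => convex_convexHull ℝ _)
  intro p hp
  obtain ⟨l, hl⟩ := hcov p hp
  apply extreme (hA l) hl
  · rintro q ⟨-, hq, -⟩
    exact hq l (subset_convexHull ℝ _ (mem_coe.2 hl))
  · rintro ⟨-, -, h⟩
    exact h rfl

/-- **covers by sets in convex position**: `2 h ≤ (2 c - 1) n` -/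
theorem cover' (hP : Gen P) (hE : Even #P) {c : ℕ} (A : Fin c → Finset (ℝ × ℝ))
    (hA : ∀ i, ConvexPosition (A i)) (hcov : ∀ p ∈ P, ∃ i, p ∈ A i) :
    2 * {L | IsBisector P L}.ncard + #P ≤ 2 * c * #P := by
  have h := cover hP hE A hA hcov
  have h1 : ∑ i, #{p ∈ P | p ∉ convexHull ℝ (A i : Set (ℝ × ℝ))} + #P ≤ c * #P := by
    have h2 : ∀ i : Fin c, #{p ∈ P | p ∉ convexHull ℝ (A i : Set (ℝ × ℝ))} +
        #{p ∈ P | p ∈ A i} ≤ #P := by
      intro i
      rw [← card_union_of_disjoint]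
      · apply card_le_card
        intro x hx
        rw [mem_union, mem_filter, mem_filter] at hx
        rcases hx with hx | hx <;> exact hx.1
      · rw [disjoint_filter]
        intro x _ h3 h4
        exact h3 (subset_convexHull ℝ _ (mem_coe.2 h4))
    have h3 : #P ≤ ∑ i : Fin c, #{p ∈ P | p ∈ A i} := by
      have : P ⊆ (univ : Finset (Fin c)).biUnion (fun i => {p ∈ P | p ∈ A i}) := by
        intro p hp
        obtain ⟨i, hi⟩ := hcov p hp
        rw [mem_biUnion]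
        exact ⟨i, mem_univ i, by rw [mem_filter]; exact ⟨hp, hi⟩⟩
      exact (card_le_card this).trans card_biUnion_le
    have h4 : ∑ i : Fin c, (#{p ∈ P | p ∉ convexHull ℝ (A i : Set (ℝ × ℝ))} +
        #{p ∈ P | p ∈ A i}) ≤ ∑ _i : Fin c, #P := sum_le_sum fun i _ => h2 i
    rw [sum_add_distrib, sum_const, card_univ, Fintype.card_fin, smul_eq_mul] at h4
    omega
  have h5 : 2 * c * #P = 2 * (c * #P) := by ring
  rw [h5]
  omega

end

end Pool.Agent.TH511.HLC
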