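import Pool.Agent.W296.HL5
import Pool.Agent.TH511.HLC.Part
import Pool.Agent.TH511.HLC.Dir

/-!
# Bisectors through two points of a subset
-/

set_option autoImplicit false

namespace Pool.Agent.TH511.HLC

open Finset Pool.Agent.W296.HL

open scoped Classical

/-- the bisectors of `P` that pass through two points of `S` -/
def BisIn (P S : Finset (ℝ × ℝ)) : Set (Set (ℝ × ℝ)) :=
  {L | IsBisector P L ∧ ∃ p ∈ S, ∃ q ∈ S, p ≠ q ∧ p ∈ L ∧ q ∈ L}

lemma bisIn_le (P S : Finset (ℝ × ℝ)) (hS : S ⊆ P) :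
    2 * (BisIn P S).ncard ≤ #{z ∈ DD P (#P / 2 - 1) | z.1 ∈ S ∧ z.2 ∈ S} := by
  have hf : (BisIn P S).Finite := (bis_finite P).subset fun L hL => hL.1
  set B := hf.toFinset with hB
  have hc : (BisIn P S).ncard = #B := by
    rw [hB, Set.ncard_eq_toFinset_card _ hf]
  have hex : ∀ L : Set (ℝ × ℝ), ∃ z : (ℝ × ℝ) × (ℝ × ℝ), L ∈ BisIn P S →
      z.1 ∈ S ∧ z.2 ∈ S ∧ Hv P z.1 z.2 ∧ L = {x | cr z.1 z.2 x = 0} := by
    intro L
    by_cases hL : L ∈ BisIn P S
    · obtain ⟨hL1, p, hp, q, hq, hpq, hpL, hqL⟩ := id hL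
      obtain ⟨h3, h4⟩ := hv_of_line hL1 hpq hpL hqL
      exact ⟨(p, q), fun _ => ⟨hp, hq, h3, h4⟩⟩
    · exact ⟨((0, 0), (0, 0)), fun h => absurd h hL⟩
  choose z hz using hex
  have hBm : ∀ L ∈ B, L ∈ BisIn P S := by
    intro L hL
    rw [hB, Set.Finite.mem_toFinset] at hL
    exact hL
  rw [hc]
  have hcard : #(B ×ˢ (Finset.univ : Finset Bool)) = 2 * #B := by
    rw [card_product, Finset.card_univ, Fintype.card_bool, mul_comm]
  rw [← hcard]
  have hrev : ∀ p q : ℝ × ℝ, {x | cr p q x = 0} = {x | cr q p x = 0} := by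
    intro p q; ext x
    simp only [Set.mem_ofPred_eq, cr_swap p q x, neg_eq_zero]
  have hmem : ∀ a b : ℝ × ℝ, a ∈ S → b ∈ S → Hv P a b →
      (a, b) ∈ ({z ∈ DD P (#P / 2 - 1) | z.1 ∈ S ∧ z.2 ∈ S} :
        Finset ((ℝ × ℝ) × (ℝ × ℝ))) := by
    intro a b ha hb h
    rw [mem_filter, mem_DD]
    exact ⟨⟨hS ha, hS hb, h.1, h.2.1⟩, ha, hb⟩
  refine card_le_card_of_injOn (fun w => if w.2 then z w.1 else ((z w.1).2, (z w.1).1)) ?_ ?_
  · rintro ⟨L, b⟩ hw
    rw [mem_coe, mem_product] at hw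
    obtain ⟨h1, h2, h3, h4⟩ := hz L (hBm L hw.1)
    rw [mem_coe]
    cases b
    · exact hmem _ _ h2 h1 h3.symm
    · exact hmem _ _ h1 h2 h3
  · rintro ⟨L, b⟩ hw ⟨L', b'⟩ hw' h
    rw [mem_coe, mem_product] at hw hw'
    obtain ⟨h1, h2, h3, h4⟩ := hz L (hBm L hw.1)
    obtain ⟨h1', h2', h3', h4'⟩ := hz L' (hBm L' hw'.1)
    cases b <;> cases b' <;> simp only [Bool.false_eq_true, if_false, if_true] at h
    · have e1 := congrArg Prod.fst h
      have e2 := congrArg Prod.snd h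
      simp only at e1 e2
      have : L = L' := by rw [h4, h4', e1, e2]
      rw [this]
    · exfalso
      have e1 : (z L).2 = (z L').1 := congrArg Prod.fst h
      have e2 : (z L).1 = (z L').2 := congrArg Prod.snd h
      have : L = L' := by rw [h4, h4', hrev, e1, e2]
      subst this
      exact h3.1 e1.symm
    · exfalso
      have e1 : (z L).1 = (z L').2 := congrArg Prod.fst h
      have e2 : (z L).2 = (z L').1 := congrArg Prod.snd h
      have : L = L' := by rw [h4, h4', hrev, e1, e2]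
      subst this
      exact h3.1 e1
    · have : L = L' := by rw [h4, h4', h]
      rw [this]

/-- **patterns, local form** -/
theorem pattern_local {P : Finset (ℝ × ℝ)} (hP : Gen P) (S : Finset (ℝ × ℝ)) (hS : S ⊆ P) {s : ℕ}
    (K : Fin s → Set (ℝ × ℝ)) (hK : ∀ i, Convex ℝ (K i))
    (hv : ∀ p ∈ S, p ∉ convexHull ℝ {q : ℝ × ℝ | q ∈ P ∧ (∀ i, p ∈ K i → q ∈ K i) ∧ q ≠ p}) :
    2 * (BisIn P S).ncard ≤ #S + 2 * ∑ i, #{p ∈ P | p ∉ K i} :=
  (bisIn_le P S hS).trans (pattern2 hP _ S hS K hK hv).1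

/-- **bisectors through two points of a subset covered by sets in convex position** -/
theorem cover_local {P : Finset (ℝ × ℝ)} (hP : Gen P) (S : Finset (ℝ × ℝ)) (hS : S ⊆ P) {c : ℕ}
    (A : Fin c → Finset (ℝ × ℝ)) (hA : ∀ i, ConvexPosition (A i)) (hcov : ∀ p ∈ S, ∃ i, p ∈ A i) :
    2 * (BisIn P S).ncard ≤ #S + 2 * ∑ i, #{p ∈ P | p ∉ convexHull ℝ (A i : Set (ℝ × ℝ))} := by
  apply pattern_local hP S hS (fun i => convexHull ℝ (A i : Set (ℝ × ℝ)))
    (fun i => convex_convexHull ℝ _)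
  intro p hp
  obtain ⟨l, hl⟩ := hcov p hp
  apply extreme (hA l) hl
  · rintro q ⟨-, hq, -⟩
    exact hq l (subset_convexHull ℝ _ (mem_coe.2 hl))
  · rintro ⟨-, -, h⟩
    exact h rfl

/-- **bisectors through two points of a subset in convex position** -/
theorem convex_local {P : Finset (ℝ × ℝ)} (hP : Gen P) (S : Finset (ℝ × ℝ)) (hS : S ⊆ P)
    (hA : ConvexPosition S) :
    2 * (BisIn P S).ncard ≤ #S + #{p ∈ P | p ∉ convexHull ℝ (S : Set (ℝ × ℝ))} := by
  refine (bisIn_le P S hS).trans ?_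
  have h := (pattern2 hP (#P / 2 - 1) S hS (s := 1) (fun _ => convexHull ℝ (S : Set (ℝ × ℝ)))
    (fun i => convex_convexHull ℝ _) (by
      intro p hp
      apply extreme hA hp
      · rintro q ⟨-, hq, -⟩
        exact hq 0 (subset_convexHull ℝ _ (mem_coe.2 hp))
      · rintro ⟨-, -, h⟩
        exact h rfl)).2 (fun _ p hp => subset_convexHull ℝ _ (mem_coe.2 hp))
  rw [Fin.sum_univ_one] at h
  exact h

/-- all bisectors -/
lemma bisIn_self (P : Finset (ℝ × ℝ)) : BisIn P P = {L | IsBisector P L} := by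
  ext L
  constructor
  · intro h; exact h.1
  · intro h
    obtain ⟨a, b, c, hab, hL2, hex, h1, h2⟩ := id h
    exact ⟨h, hex⟩

end Pool.Agent.TH511.HLC
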